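import Pool.Agent.Q185.NP.Stm

/-!
# Project NP, job A1: polynomial maps form a group (Leibman)
-/

set_option autoImplicit false
set_option linter.unusedSectionVars false

namespace Pool.Agent.Q257.NP

open Q70.Nil Topology Filter Set Pool.Agent.Q185.NP
open scoped commutatorElement

theorem three {G : Type} [Group G] (N H1 H2 H3 : Subgroup G) [N.Normal] (h1 : ⁅⁅H2, H3⁆, H1⁆ ≤ N)
    (h2 : ⁅⁅H3, H1⁆, H2⁆ ≤ N) : ⁅⁅H1, H2⁆, H3⁆ ≤ N := by
  have key : ∀ X : Subgroup G, X ≤ N ↔ X.map (QuotientGroup.mk' N) = ⊥ := by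
    intro X
    rw [Subgroup.map_eq_bot_iff, QuotientGroup.ker_mk']
  rw [key, Subgroup.map_commutator, Subgroup.map_commutator] at h1 h2 ⊢
  exact Subgroup.commutator_commutator_eq_bot_of_rotate h1 h2

/-- `[L_i, L_j] ≤ L_{i+j+1}` -/
theorem lcs_comm {G : Type} [Group G] (j : ℕ) : ∀ i, ⁅L G i, L G j⁆ ≤ L G (i + j + 1) := by
  induction j with
  | zero =>
    intro i
    rfl
  | succ j ih =>
    intro i
    show ⁅L G i, L G (j + 1)⁆ ≤ L G (i + (j + 1) + 1)
    rw [Subgroup.commutator_comm]
    show ⁅⁅L G j, (⊤ : Subgroup G)⁆, L G i⁆ ≤ L G (i + (j + 1) + 1)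
    apply three
    · rw [Subgroup.commutator_comm ⊤]
      show ⁅L G (i + 1), L G j⁆ ≤ L G (i + (j + 1) + 1)
      refine (ih (i + 1)).trans (le_of_eq ?_)
      congr 1
      omega
    · have h1 := Subgroup.commutator_mono (ih i) (le_refl (⊤ : Subgroup G))
      exact h1

/-- commutators of elements of `F_i` and `F_j` -/
theorem comm_F {G : Type} [Group G] {i j : ℕ} {x y : G} (hx : x ∈ L G (i - 1))
    (hy : y ∈ L G (j - 1)) : ⁅x, y⁆ ∈ L G (i + j - 1) := by
  rcases Nat.eq_zero_or_pos i with rfl | hi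
  · have h1 := comm_mem' hy x
    exact Subgroup.lowerCentralSeries_antitone _ (by omega) h1
  rcases Nat.eq_zero_or_pos j with rfl | hj
  · have h1 := comm_mem hx y
    exact Subgroup.lowerCentralSeries_antitone _ (by omega) h1
  have h1 := lcs_comm (G := G) (j - 1) (i - 1) (Subgroup.commutator_mem_commutator hx hy)
  exact Subgroup.lowerCentralSeries_antitone _ (by omega) h1

variable {G : Type} [Group G] {d : ℕ}

theorem PNval {n k : ℕ} {h : Ix d → G} (hh : PN n k h) (a : Ix d) : h a ∈ L G (k - 1) := by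
  cases n with
  | zero => exact hh a
  | succ n => exact hh.1 a

theorem PNdown (n : ℕ) : ∀ (k : ℕ) (h : Ix d → G), PN (n + 1) k h → PN n k h := by
  induction n with
  | zero => intro k h hh; exact hh.1
  | succ n ih => intro k h hh; exact ⟨hh.1, fun m => ih _ _ (hh.2 m)⟩

theorem PNlev (n : ℕ) : ∀ (k : ℕ) (h : Ix d → G), PN n (k + 1) h → PN n k h := by
  induction n with
  | zero =>
    intro k h hh a
    exact Subgroup.lowerCentralSeries_antitone _ (by omega) (hh a)
  | succ n ih =>
    intro k h hh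
    exact ⟨fun a => Subgroup.lowerCentralSeries_antitone _ (by omega) (hh.1 a),
      fun m => ih _ _ (hh.2 m)⟩

theorem PNmono {n k k' : ℕ} (hk : k ≤ k') {h : Ix d → G} (hh : PN n k' h) : PN n k h := by
  induction hk with
  | refl => exact hh
  | step _ ih => exact ih (PNlev _ _ _ hh)

theorem PNcast {n k : ℕ} {h h' : Ix d → G} (hh : PN n k h) (e : h = h') : PN n k h' := e ▸ hh

theorem main (n : ℕ) :
    (∀ (k : ℕ) (g h : Ix d → G), PN n k g → PN n k h → PN n k (fun a => g a * h a)) ∧
    (∀ (k : ℕ) (g : Ix d → G), PN n k g → PN n k (fun a => (g a)⁻¹)) ∧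
    (∀ (i j : ℕ) (g h : Ix d → G), PN n i g → PN n j h → PN n (i + j) (fun a => ⁅g a, h a⁆)) := by
  induction n with
  | zero =>
    exact ⟨fun k g h hg hh a => mul_mem (hg a) (hh a), fun k g hg a => inv_mem (hg a),
      fun i j g h hg hh a => comm_F (hg a) (hh a)⟩
  | succ n ih =>
    obtain ⟨ia, ib, ic⟩ := ih
    have conj : ∀ (s : ℕ) (u v : Ix d → G), PN n 0 u → PN n s v →
        PN n s (fun a => u a * v a * (u a)⁻¹) := by
      intro s u v hu hv
      have h1 := ic 0 s u v hu hv
      rw [zero_add] at h1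
      refine PNcast (ia s _ _ h1 hv) ?_
      funext a
      simp only [commutatorElement_def]
      group
    refine ⟨?_, ?_, ?_⟩
    · intro k g h hg hh
      refine ⟨fun a => mul_mem (hg.1 a) (hh.1 a), fun m => ?_⟩
      have hx := hg.2 m
      have hy := hh.2 m
      have hg' := PNdown _ _ _ hg
      have h1 := PNmono (show k + 1 ≤ k + (k + 1) by omega) (ic _ _ _ _ hg' hy)
      refine PNcast (ia _ _ _ (ia _ _ _ hx h1) hy) ?_
      funext a
      simp only [commutatorElement_def]
      group
    · intro k g hg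
      refine ⟨fun a => inv_mem (hg.1 a), fun m => ?_⟩
      have hx := ib _ _ (hg.2 m)
      have hg' := ib _ _ (PNdown _ _ _ hg)
      have h1 := PNmono (show k + 1 ≤ k + (k + 1) by omega) (ic _ _ _ _ hg' hx)
      refine PNcast (ia _ _ _ h1 hx) ?_
      funext a
      simp only [commutatorElement_def]
      group
    · intro i j g h hg hh
      refine ⟨fun a => comm_F (hg.1 a) (hh.1 a), fun m => ?_⟩
      have hx := hg.2 m
      have hy := hh.2 m
      have hg' := PNdown _ _ _ hg
      have hh' := PNdown _ _ _ hh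
      have hc := ic _ _ _ _ hg' hh'
      have hx0 := PNmono (Nat.zero_le _) hx
      have hy0 := PNmono (Nat.zero_le _) hy
      have hc0 := PNmono (Nat.zero_le _) hc
      have hx1 := PNmono (show 1 ≤ i + 1 by omega) hx
      have hy1 := PNmono (show 1 ≤ j + 1 by omega) hy
      -- the three factors
      have f1 := conj _ _ _ hx0 (PNmono (show i + j + 1 ≤ i + (j + 1) by omega)
        (ic _ _ _ _ hg' hy))
      have f2 := PNmono (show i + j + 1 ≤ 1 + (i + j) by omega)
        (ic _ _ _ _ (ia _ _ _ hx1 hy1) hc)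
      have f3 := PNmono (show i + j + 1 ≤ i + 1 + (j + 1) by omega) (ic _ _ _ _ hx hy)
      have f4 := conj _ _ _ hy0 (PNmono (show i + j + 1 ≤ i + 1 + j by omega)
        (ic _ _ _ _ hx hh'))
      have f5 := conj _ _ _ hc0 (ia _ _ _ f3 f4)
      refine PNcast (ia _ _ _ (ia _ _ _ f1 f2) f5) ?_
      funext a
      simp only [commutatorElement_def]
      group

theorem subst (n : ℕ) (f : Ix d → Ix d) (hf : ∀ a b, f (a + b) = f a + f b) :
    ∀ (k : ℕ) (g : Ix d → G), PN n k g → PN n k (fun a => g (f a)) := by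
  induction n with
  | zero => intro k g hg a; exact hg (f a)
  | succ n ih =>
    intro k g hg
    refine ⟨fun a => hg.1 (f a), fun m => ?_⟩
    have h1 := ih _ _ (hg.2 (f m))
    refine PNcast h1 ?_
    funext a
    simp only [hf]

theorem one (n : ℕ) : ∀ (k : ℕ), PN n k (fun _ : Ix d => (1 : G)) := by
  induction n with
  | zero => intro k a; exact one_mem _
  | succ n ih =>
    intro k
    refine ⟨fun a => one_mem _, fun m => ?_⟩
    refine PNcast (ih _) ?_
    funext a
    simp

theorem const (x : G) : Pl (fun _ : Ix d => x) := by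
  intro n
  cases n with
  | zero => intro a; exact L_zero_mem x
  | succ n =>
    refine ⟨fun a => L_zero_mem x, fun m => ?_⟩
    refine PNcast (one n _) ?_
    funext a
    simp

/-- **A1 (Leibman's theorem)** -/
theorem a1 : S_A1 := fun _ _ _ =>
  ⟨fun g h hg hh n => (main n).1 _ g h (hg n) (hh n), fun g hg n => (main n).2.1 _ g (hg n),
    fun g f hf hg n => subst n f hf _ g (hg n), const⟩

end Pool.Agent.Q257.NP
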