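import Pool.Agent.Q257.NP.A1

/-!
# Project NP: the commutator pairing `L_i × G → L_{i+1} / closure of L_{i+2}`
-/

set_option autoImplicit false
set_option linter.unusedSectionVars false

namespace Pool.Agent.Q257.NP

open Q70.Nil Topology Filter Set Pool.Agent.Q185.NP
open scoped commutatorElement IsMulCommutative

/-! ## A balanced pairing of the reals -/

section balanced

variable {A : Type*} [Group A] [TopologicalSpace A] [T2Space A]

theorem add_nat (f : ℝ → A) (hf : ∀ s t, f (s + t) = f s * f t) (x : ℝ) (n : ℕ) :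
    f (n * x) = f x ^ n := by
  induction n with
  | zero =>
    have h := hf 0 0
    rw [add_zero] at h
    have h1 : f 0 = 1 := by
      have h2 : f 0 * f 0 = f 0 * 1 := by rw [mul_one]; exact h.symm
      exact mul_left_cancel h2
    simp [h1]
  | succ n ih =>
    rw [Nat.cast_succ, add_mul, one_mul, hf, ih, pow_succ]

theorem add_zero' (f : ℝ → A) (hf : ∀ s t, f (s + t) = f s * f t) : f 0 = 1 := by
  have := add_nat f hf 0 0
  simpa using this

theorem add_neg' (f : ℝ → A) (hf : ∀ s t, f (s + t) = f s * f t) (x : ℝ) : f (-x) = (f x)⁻¹ := by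
  rw [eq_inv_iff_mul_eq_one, ← hf, neg_add_cancel, add_zero' f hf]

theorem add_int (f : ℝ → A) (hf : ∀ s t, f (s + t) = f s * f t) (x : ℝ) (n : ℤ) :
    f (n * x) = f x ^ n := by
  obtain ⟨n, rfl | rfl⟩ := n.eq_nat_or_neg
  · rw [Int.cast_natCast, add_nat f hf, zpow_natCast]
  · rw [Int.cast_neg, Int.cast_natCast, neg_mul, add_neg' f hf, add_nat f hf, zpow_neg,
      zpow_natCast]

/-- a biadditive, separately continuous pairing of the reals is balanced -/
theorem balanced (b : ℝ → ℝ → A) (h1 : ∀ s s' t, b (s + s') t = b s t * b s' t)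
    (h2 : ∀ s t t', b s (t + t') = b s t * b s t') (c1 : Continuous fun s => b s 1)
    (c2 : Continuous fun t => b 1 t) (r : ℝ) : b r 1 = b 1 r := by
  have hq : ∀ q : ℚ, b (q : ℝ) 1 = b 1 (q : ℝ) := by
    intro q
    have hd : (q.den : ℝ) ≠ 0 := by exact_mod_cast q.den_nz
    have hqe : (q : ℝ) = (q.num : ℝ) * (1 / (q.den : ℝ)) := by
      rw [mul_one_div]
      exact_mod_cast (Rat.num_div_den q).symm
    set u : ℝ := 1 / (q.den : ℝ) with hu
    have hu1 : (q.den : ℝ) * u = 1 := by rw [hu]; field_simp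
    have e1 : b u 1 = b u u ^ q.den := by
      have := add_nat (fun t => b u t) (fun s t => h2 u s t) u q.den
      rw [hu1] at this
      exact this
    have e2 : b 1 u = b u u ^ q.den := by
      have := add_nat (fun s => b s u) (fun s t => h1 s t u) u q.den
      rw [hu1] at this
      exact this
    have e3 := add_int (fun s => b s 1) (fun s t => h1 s t 1) u q.num
    have e4 := add_int (fun s => b 1 s) (fun s t => h2 1 s t) u q.num
    rw [hqe, e3, e4, e1, e2]
  have hd : Dense (Set.range ((↑) : ℚ → ℝ)) := Rat.denseRange_cast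
  have := Continuous.ext_on hd c1 c2 (by rintro _ ⟨q, rfl⟩; exact hq q)
  exact congrFun this r

end balanced

theorem map_sum' {V A κ : Type*} [AddCommMonoid V] [CommGroup A] (F : V → A)
    (hF : ∀ w w', F (w + w') = F w * F w') (s : Finset κ) (u : κ → V) :
    F (∑ k ∈ s, u k) = ∏ k ∈ s, F (u k) := by
  classical
  have h0 : F 0 = 1 := by
    have h := hF 0 0
    rw [add_zero] at h
    have h2 : F 0 * F 0 = F 0 * 1 := by rw [mul_one]; exact h.symm
    exact mul_left_cancel h2
  induction s using Finset.induction_on with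
  | empty => simpa using h0
  | insert a s ha ih => rw [Finset.sum_insert ha, Finset.prod_insert ha, hF, ih]

/-! ## The pairing -/

section pairing

variable {G : Type} [Group G] [TopologicalSpace G] [IsTopologicalGroup G]

instance normLc (i : ℕ) : (Lc G i).Normal := Subgroup.is_normal_topologicalClosure _

instance closLc (i : ℕ) : IsClosed (Lc G i : Set G) := Subgroup.isClosed_topologicalClosure _

theorem L_le_Lc (i : ℕ) : L G i ≤ Lc G i := Subgroup.le_topologicalClosure _

variable (G) in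
/-- the quotient by the closure of `L_i` -/
abbrev Qt (i : ℕ) := G ⧸ Lc G i

/-- the class -/
abbrev cl (i : ℕ) : G →* Qt G i := QuotientGroup.mk' (Lc G i)

theorem cl_cont (i : ℕ) : Continuous (cl (G := G) i) := QuotientGroup.continuous_mk

theorem cl_eq_one {i : ℕ} {x : G} : cl i x = 1 ↔ x ∈ Lc G i := by
  rw [QuotientGroup.mk'_apply, QuotientGroup.eq_one_iff]

theorem cl_eq {i : ℕ} {x y : G} : cl i x = cl i y ↔ x⁻¹ * y ∈ Lc G i := by
  rw [QuotientGroup.mk'_apply, QuotientGroup.mk'_apply, QuotientGroup.eq]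

variable (G) in
/-- the centre of the quotient -/
abbrev Cn (i : ℕ) := Subgroup.center (Qt G i)

theorem mem_cent {i : ℕ} {x : G} (h : ∀ y : G, ⁅x, y⁆ ∈ Lc G i) : cl i x ∈ Cn G i := by
  rw [Subgroup.mem_center_iff]
  intro g
  obtain ⟨y, rfl⟩ := QuotientGroup.mk'_surjective _ g
  have h1 := h y
  rw [← cl_eq_one, map_commutatorElement, commutatorElement_eq_one_iff_mul_comm] at h1
  exact h1.symm

theorem L_cent {i : ℕ} {x : G} (hx : x ∈ L G i) : cl (i + 1) x ∈ Cn G (i + 1) :=
  mem_cent fun y => L_le_Lc _ (comm_mem hx y)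

theorem Lc_cent {i : ℕ} {x : G} (hx : x ∈ Lc G i) : cl (i + 1) x ∈ Cn G (i + 1) := by
  have hc : IsClosed {x : G | ∀ y : G, cl (i + 1) ⁅x, y⁆ = 1} := by
    have : {x : G | ∀ y : G, cl (i + 1) ⁅x, y⁆ = 1} = ⋂ y : G, {x : G | cl (i + 1) ⁅x, y⁆ = 1} := by
      ext x; simp
    rw [this]
    refine isClosed_iInter fun y => isClosed_eq ((cl_cont _).comp ?_) continuous_const
    simp only [commutatorElement_def]
    fun_prop
  have hsub : (Lc G i : Set G) ⊆ {x : G | ∀ y : G, cl (i + 1) ⁅x, y⁆ = 1} := by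
    refine closure_minimal ?_ hc
    intro x hx y
    exact cl_eq_one.2 (L_le_Lc _ (comm_mem hx y))
  exact mem_cent fun y => cl_eq_one.1 (hsub hx y)

/-- commutators of `L_i` and the closure of `L_1` -/
theorem comm_Lc1 {i : ℕ} {x y : G} (hx : x ∈ L G i) (hy : y ∈ Lc G 1) :
    cl (i + 2) ⁅x, y⁆ = 1 := by
  have hc : IsClosed {y : G | cl (i + 2) ⁅x, y⁆ = 1} := by
    refine isClosed_eq ((cl_cont _).comp ?_) continuous_const
    show Continuous fun y : G => x * y * x⁻¹ * y⁻¹
    fun_prop
  have hsub : (Lc G 1 : Set G) ⊆ {y : G | cl (i + 2) ⁅x, y⁆ = 1} := by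
    refine closure_minimal ?_ hc
    intro y hy
    exact cl_eq_one.2 (L_le_Lc _ (lcs_comm 1 i (Subgroup.commutator_mem_commutator hx hy)))
  exact hsub hy

/-- the class of an element of `L_i`, as an element of the centre -/
def rho (i : ℕ) : L G i →* Cn G (i + 1) where
  toFun x := ⟨cl (i + 1) (x : G), L_cent x.2⟩
  map_one' := by ext; simp
  map_mul' x y := by ext; simp

@[simp] theorem rho_coe (i : ℕ) (x : L G i) : ((rho i x : Cn G (i + 1)) : Qt G (i + 1)) =
    cl (i + 1) (x : G) := rfl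

/-- the commutator pairing -/
def br (i : ℕ) : L G i →* (G →* Cn G (i + 2)) :=
  MonoidHom.mk' (fun x => MonoidHom.mk'
    (fun y => rho (i + 1) ⟨⁅(x : G), y⁆, comm_mem x.2 y⟩) (by
      intro y y'
      apply Subtype.ext
      simp only [rho_coe, Subgroup.coe_mul]
      rw [comm_mul_right, map_mul, map_mul]
      have h1 : cl (i + 1 + 1) ⁅y, ⁅(x : G), y'⁆⁆ = 1 :=
        cl_eq_one.2 (L_le_Lc _ (comm_mem' (comm_mem x.2 y') y))
      rw [h1, mul_one])) (by
    intro x x'
    ext y
    simp only [MonoidHom.mk'_apply, rho_coe, Subgroup.coe_mul, MonoidHom.mul_apply]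
    rw [comm_mul_left, map_mul, map_mul]
    have h1 : cl (i + 1 + 1) ⁅(x : G), ⁅(x' : G), y⁆⁆ = 1 :=
      cl_eq_one.2 (L_le_Lc _ (comm_mem' (comm_mem x'.2 y) x))
    rw [h1, one_mul]
    have h2 := L_cent (comm_mem x.2 y)
    rw [Subgroup.mem_center_iff] at h2
    exact h2 _)

@[simp] theorem br_coe (i : ℕ) (x : L G i) (y : G) : ((br i x y : Cn G (i + 2)) : Qt G (i + 2)) =
    cl (i + 2) ⁅(x : G), y⁆ := rfl

theorem br_rho (i : ℕ) (x : L G i) (y : G) :
    br i x y = rho (i + 1) ⟨⁅(x : G), y⁆, comm_mem x.2 y⟩ := rfl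

theorem br_left {i : ℕ} (x x' : L G i) (h : (x : G)⁻¹ * x' ∈ Lc G (i + 1)) (y : G) :
    br i x y = br i x' y := by
  have h1 : br i (x⁻¹ * x') y = 1 := by
    apply Subtype.ext
    rw [br_coe]
    have h2 := Lc_cent h
    rw [map_commutatorElement]
    have h3 : ((x⁻¹ * x' : L G i) : G) = (x : G)⁻¹ * x' := rfl
    rw [h3, commutatorElement_eq_one_iff_mul_comm.2]
    · rfl
    · exact ((Subgroup.mem_center_iff.1 h2) _).symm
  rw [map_mul, map_inv, MonoidHom.mul_apply, MonoidHom.inv_apply, inv_mul_eq_one] at h1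
  exact h1

theorem br_right {i : ℕ} (x : L G i) (y y' : G) (h : y⁻¹ * y' ∈ Lc G 1) :
    br i x y = br i x y' := by
  have h1 : br i x (y⁻¹ * y') = 1 := by
    apply Subtype.ext
    rw [br_coe, comm_Lc1 x.2 h]
    rfl
  rw [map_mul, map_inv, inv_mul_eq_one] at h1
  exact h1

theorem br_cont {X : Type*} [TopologicalSpace X] (i : ℕ) (f : X → L G i) (c : X → G)
    (hf : Continuous fun t => (f t : G)) (hc : Continuous c) :
    Continuous fun t => br i (f t) (c t) := by
  refine Continuous.subtype_mk ?_ _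
  refine (cl_cont _).comp ?_
  simp only [commutatorElement_def]
  fun_prop

/-! ## From a family of paths to `RD` -/

/-- a family of paths in `L_{i+1}` indexed by a finite type gives `RD Γ (i+1)` if the products contain the
commutators -/
theorem RD_of {ι : Type} [Fintype ι] (Γ : Subgroup G) (i : ℕ) (ψ : ι → ℝ → L G (i + 1))
    (hc : ∀ j, Continuous fun t => (ψ j t : G))
    (hadd : ∀ j s t, rho (i + 1) (ψ j (s + t)) = rho (i + 1) (ψ j s) * rho (i + 1) (ψ j t))
    (h1 : ∀ j, ∃ γ ∈ Γ, cl (i + 2) (ψ j 1 : G) = cl (i + 2) γ)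
    (hs : ∀ (x : L G i) (y : G), ∃ t : ι → ℝ, br i x y = ∏ j, rho (i + 1) (ψ j (t j))) :
    RD Γ (i + 1) := by
  classical
  let e := Fintype.equivFin ι
  refine ⟨Fintype.card ι, fun k t => (ψ (e.symm k) t : G), fun k => hc _, fun k t => (ψ _ t).2,
    fun k s t => ?_, fun k => ?_, ?_⟩
  · rw [← cl_eq]
    rw [map_mul]
    exact congrArg (Subtype.val) (hadd (e.symm k) s t)
  · obtain ⟨γ, hγ, h⟩ := h1 (e.symm k)
    exact ⟨γ, hγ, cl_eq.1 h⟩
  · -- the set of good elements is a subgroup
    have key : ∀ x : L G (i + 1), ∃ t : ι → ℝ, rho (i + 1) x = ∏ j, rho (i + 1) (ψ j (t j)) := by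
      rintro ⟨x, hx⟩
      have hx' : x ∈ Subgroup.closure {x | ∃ p ∈ L G i, ∃ q ∈ (⊤ : Subgroup G), ⁅p, q⁆ = x} := hx
      induction hx' using Subgroup.closure_induction with
      | mem y hy =>
        obtain ⟨p, hp, q, -, rfl⟩ := hy
        exact hs ⟨p, hp⟩ q
      | one =>
        refine ⟨0, ?_⟩
        have h0 : ∀ j, rho (i + 1) (ψ j 0) = 1 := by
          intro j
          have h := hadd j 0 0
          rw [add_zero] at h
          have h2 : rho (i + 1) (ψ j 0) * rho (i + 1) (ψ j 0) = rho (i + 1) (ψ j 0) * 1 := by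
            rw [mul_one]; exact h.symm
          exact mul_left_cancel h2
        simp only [Pi.zero_apply, h0, Finset.prod_const_one]
        exact map_one _
      | mul y z hy hz ihy ihz =>
        obtain ⟨t, ht⟩ := ihy hy
        obtain ⟨s, hs'⟩ := ihz hz
        refine ⟨t + s, ?_⟩
        have h3 : (⟨y * z, hx⟩ : L G (i + 1)) = ⟨y, hy⟩ * ⟨z, hz⟩ := rfl
        rw [h3, map_mul, ht, hs', ← Finset.prod_mul_distrib]
        exact Finset.prod_congr rfl fun j _ => (hadd j _ _).symm
      | inv y hy ihy =>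
        obtain ⟨t, ht⟩ := ihy hy
        refine ⟨-t, ?_⟩
        have h3 : (⟨y⁻¹, hx⟩ : L G (i + 1)) = (⟨y, hy⟩)⁻¹ := rfl
        rw [h3, map_inv, ht, ← Finset.prod_inv_distrib]
        refine Finset.prod_congr rfl fun j _ => ?_
        have h4 := hadd j (t j) (-(t j))
        have h5 := hadd j 0 0
        rw [add_neg_cancel] at h4
        rw [add_zero] at h5
        have h6 : rho (i + 1) (ψ j 0) = 1 := by
          have h2 : rho (i + 1) (ψ j 0) * rho (i + 1) (ψ j 0) = rho (i + 1) (ψ j 0) * 1 := by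
            rw [mul_one]; exact h5.symm
          exact mul_left_cancel h2
        rw [h6] at h4
        rw [Pi.neg_apply]
        exact inv_eq_of_mul_eq_one_right h4.symm
    intro x hx
    obtain ⟨t, ht⟩ := key ⟨x, hx⟩
    refine ⟨fun k => t (e.symm k), ?_⟩
    rw [← cl_eq]
    have h2 := congrArg (Subtype.val) ht
    rw [rho_coe] at h2
    have h3 : cl (i + 1 + 1) x = ((∏ j, rho (i + 1) (ψ j (t j)) : Cn G (i + 1 + 1)) :
      Qt G (i + 1 + 1)) := h2
    rw [h3, ← Equiv.prod_comp e.symm, ← List.prod_ofFn, map_list_prod, SubmonoidClass.coe_list_prod,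
      List.map_ofFn, List.map_ofFn]
    rfl

end pairing

end Pool.Agent.Q257.NP
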