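import Pool.Agent.Q257.NP.Br

/-!
# Project NP, job C2: the base case of the cocompactness theorem for the lower central series
-/

set_option autoImplicit false
set_option linter.unusedSectionVars false

namespace Pool.Agent.Q257.NP

open Q70.Nil Topology Filter Set Pool.Agent.Q185.NP
open scoped commutatorElement IsMulCommutative

theorem comm6 {A : Type*} [CommGroup A] (a a' b b' c c' : A) :
    a * a' * (b * b') * (c * c')⁻¹ = a * b * c⁻¹ * (a' * b' * c'⁻¹) := by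
  rw [mul_mul_mul_comm a a', mul_inv, mul_mul_mul_comm]

theorem c2 (h : S_C1) : S_C2 := by
  rintro G _ _ _ ⟨n, e, he⟩ Γ hΓ g hg
  obtain ⟨w, m, hw1, hw2, hw3, hw4⟩ := h G n e he Γ hΓ g hg
  let P : G → L G 0 := fun x => ⟨x, L_zero_mem x⟩
  have Pmul : ∀ x x', P (x * x') = P x * P x' := fun x x' => rfl
  let B : G → G → Cn G 2 := fun x y => br 0 (P x) y
  have Bl : ∀ x x' y, B (x * x') y = B x y * B x' y := by
    intro x x' y
    simp only [B]
    rw [Pmul, map_mul, MonoidHom.mul_apply]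
  have Br : ∀ x y y', B x (y * y') = B x y * B x y' := fun x y y' => map_mul _ _ _
  have Bcl : ∀ x x' y, x⁻¹ * x' ∈ Lc G 1 → B x y = B x' y := fun x x' y h1 =>
    br_left (P x) (P x') h1 y
  have Bcr : ∀ x y y', y⁻¹ * y' ∈ Lc G 1 → B x y = B x y' := fun x y y' h1 =>
    br_right (P x) y y' h1
  have Blz : ∀ x y (k : ℤ), B (x ^ k) y = B x y ^ k := by
    intro x y k
    have h1 : P (x ^ k) = P x ^ k := rfl
    simp only [B]
    rw [h1, map_zpow]
    rfl
  have Brz : ∀ x y (k : ℤ), B x (y ^ k) = B x y ^ k := fun x y k => map_zpow _ _ _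
  have Bself : ∀ x, B x x = 1 := by
    intro x
    apply Subtype.ext
    show cl 2 ⁅x, x⁆ = 1
    rw [commutatorElement_self, map_one]
  have Bsymm : ∀ x y, B x y = (B y x)⁻¹ := by
    intro x y
    apply Subtype.ext
    show cl 2 ⁅x, y⁆ = (cl 2 ⁅y, x⁆)⁻¹
    rw [← commutatorElement_inv, map_inv]
  have eL : ∀ v v' y, B (e (v + v')) y = B (e v) y * B (e v') y := by
    intro v v' y
    rw [← Bl]
    exact Bcl _ _ _ (hw3 v v')
  have eR : ∀ x v v', B x (e (v + v')) = B x (e v) * B x (e v') := by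
    intro x v v'
    rw [← Br]
    exact Bcr _ _ _ (hw3 v v')
  have econt := he.cont
  have Bcont : ∀ {X : Type} [TopologicalSpace X] (f c : X → G), Continuous f → Continuous c →
      Continuous fun t => B (f t) (c t) := fun f c hf hc => br_cont 0 (fun t => P (f t)) c hf hc
  let β : (Fin n → ℝ) → ℝ → (Fin n → ℝ) → ℝ → Cn G 2 := fun v r v' r' =>
    B (e v) (e v') * B (e (r' • v)) g * (B (e (r • v')) g)⁻¹
  have β1 : ∀ v v₁ r r₁ v' r', β (v + v₁) (r + r₁) v' r' = β v r v' r' * β v₁ r₁ v' r' := by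
    intro v v₁ r r₁ v' r'
    simp only [β]
    rw [smul_add, add_smul, eL, eL, eL]
    exact comm6 _ _ _ _ _ _
  have β2 : ∀ v r v' r' v₁ r₁, β v r (v' + v₁) (r' + r₁) = β v r v' r' * β v r v₁ r₁ := by
    intro v r v' r' v₁ r₁
    simp only [β]
    rw [smul_add, add_smul, eR, eL, eL]
    exact comm6 _ _ _ _ _ _
  have βbal : ∀ v r t v' r', β v r (t • v') (t * r') = β (t • v) (t * r) v' r' := by
    intro v r t v' r'
    have h1 := balanced (fun a b => B (e (a • v)) (e (b • v')))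
      (fun a a' b => by rw [add_smul, eL]) (fun a b b' => by rw [add_smul, eR])
      (Bcont (fun a : ℝ => e (a • v)) (fun _ => e ((1 : ℝ) • v')) (by fun_prop) (by fun_prop))
      (Bcont (fun _ => e ((1 : ℝ) • v)) (fun b : ℝ => e (b • v')) (by fun_prop) (by fun_prop)) t
    simp only [one_smul] at h1
    simp only [β]
    rw [h1, smul_smul, smul_smul, mul_comm t r', mul_comm t r]
  have Bz : ∀ v (k : ℤ), B (e ((k : ℝ) • v)) g = B (e v) g ^ k := by
    intro v k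
    have h1 := add_int (fun a : ℝ => B (e (a • v)) g) (fun a b => by rw [add_smul, eL]) 1 k
    rw [mul_one, one_smul] at h1
    exact h1
  have βint : ∀ v (k : ℤ) v' (k' : ℤ), β v k v' k' = B (e v * g ^ k) (e v' * g ^ k') := by
    intro v k v' k'
    simp only [β]
    rw [Bl, Br, Br, Bz, Bz, Brz, Blz, Blz, Brz, Bself, one_zpow, one_zpow, mul_one,
      Bsymm g (e v'), inv_zpow]
  -- the new family
  let Ψ : Fin (n + 1) × Fin (n + 1) → ℝ → L G (0 + 1) := fun p t =>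
    ⟨⁅e (t • w p.1), e (w p.2)⁆ * ⁅e ((m p.2 : ℝ) • t • w p.1), g⁆ *
        ⁅e ((t * (m p.1 : ℝ)) • w p.2), g⁆⁻¹,
      mul_mem (mul_mem (comm_mem (L_zero_mem _) _) (comm_mem (L_zero_mem _) _))
        (inv_mem (comm_mem (L_zero_mem _) _))⟩
  have hΨ : ∀ p t, rho (0 + 1) (Ψ p t) = β (t • w p.1) (t * m p.1) (w p.2) (m p.2) := by
    intro p t
    simp only [β, B, br_rho, ← map_mul, ← map_inv]
    rfl
  refine RD_of Γ 0 Ψ (fun p => ?_) (fun p s t => ?_) (fun p => ?_) (fun x y => ?_)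
  · show Continuous fun t : ℝ => ⁅e (t • w p.1), e (w p.2)⁆ * ⁅e ((m p.2 : ℝ) • t • w p.1), g⁆ *
        ⁅e ((t * (m p.1 : ℝ)) • w p.2), g⁆⁻¹
    simp only [commutatorElement_def]
    fun_prop
  · rw [hΨ, hΨ, hΨ, add_smul, add_mul, β1]
  · obtain ⟨γ, hγ, h1⟩ := hw1 p.1
    obtain ⟨γ', hγ', h2⟩ := hw1 p.2
    refine ⟨⁅γ, γ'⁆, Γ.mul_mem (Γ.mul_mem (Γ.mul_mem hγ hγ') (Γ.inv_mem hγ)) (Γ.inv_mem hγ'), ?_⟩
    have h3 : cl (0 + 2) (Ψ p 1 : G) = ((rho (0 + 1) (Ψ p 1) : Cn G (0 + 1 + 1)) :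
      Qt G (0 + 1 + 1)) := rfl
    rw [h3, hΨ, one_smul, one_mul, βint, Bcl _ _ _ h1, Bcr _ _ _ h2]
    rfl
  · obtain ⟨v, k, hv⟩ := hw4 x
    obtain ⟨v', k', hv'⟩ := hw4 y
    obtain ⟨s, hs1, hs2⟩ := hw2 v k
    obtain ⟨t, ht1, ht2⟩ := hw2 v' k'
    refine ⟨fun p => t p.2 * s p.1, ?_⟩
    have e1 : br 0 x y = B (e v * g ^ k) (e v' * g ^ k') := by
      rw [Bcl _ _ _ hv, Bcr _ _ _ hv']
    rw [e1, ← βint, Fintype.prod_prod_type]
    have e2 := map_sum' (V := (Fin n → ℝ) × ℝ) (fun p => β p.1 p.2 v' k')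
      (fun p q => β1 _ _ _ _ _ _) Finset.univ (fun k => (s k • w k, s k * (m k : ℝ)))
    have e3 : (∑ k, (s k • w k, s k * (m k : ℝ)) : (Fin n → ℝ) × ℝ) = (v, (k : ℝ)) := by
      rw [hs1, hs2]
      exact Prod.ext (by simp [Prod.fst_sum]) (by simp [Prod.snd_sum])
    rw [e3] at e2
    simp only at e2
    rw [e2]
    refine Finset.prod_congr rfl fun j _ => ?_
    have e4 := map_sum' (V := (Fin n → ℝ) × ℝ) (fun p => β (s j • w j) (s j * m j) p.1 p.2)
      (fun p q => β2 _ _ _ _ _ _) Finset.univ (fun k => (t k • w k, t k * (m k : ℝ)))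
    have e5 : (∑ k, (t k • w k, t k * (m k : ℝ)) : (Fin n → ℝ) × ℝ) = (v', (k' : ℝ)) := by
      rw [ht1, ht2]
      exact Prod.ext (by simp [Prod.fst_sum]) (by simp [Prod.snd_sum])
    rw [e5] at e4
    simp only at e4
    rw [e4]
    refine Finset.prod_congr rfl fun k _ => ?_
    rw [βbal, hΨ, smul_smul, mul_assoc]

end Pool.Agent.Q257.NP
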