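import Pool.Agent.Q257.NP.Br

/-!
# Project NP, job C3: the step of the cocompactness theorem for the lower central series
-/

set_option autoImplicit false
set_option linter.unusedSectionVars false

namespace Pool.Agent.Q257.NP

open Q70.Nil Topology Filter Set Pool.Agent.Q185.NP
open scoped commutatorElement IsMulCommutative

theorem br_prod {G : Type} [Group G] [TopologicalSpace G] [IsTopologicalGroup G] (i N : ℕ)
    (f : Fin N → L G i) (y : G) : br i (List.ofFn f).prod y = ∏ j, br i (f j) y := by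
  rw [map_list_prod, List.map_ofFn, List.prod_ofFn, MonoidHom.finsetProd_apply]
  rfl

theorem c3 (h : S_C1) : S_C3 := by
  rintro G _ _ _ ⟨n, e, he⟩ Γ hΓ g hg i hi ⟨N, ψ, hψc, hψL, hψadd, hψ1, hψs⟩
  obtain ⟨w, m, hw1, hw2, hw3, hw4⟩ := h G n e he Γ hΓ g hg
  let P : Fin N → ℝ → L G i := fun j t => ⟨ψ j t, hψL j t⟩
  have Pc : ∀ j, Continuous fun t => (P j t : G) := hψc
  have Padd : ∀ j s t y, br i (P j (s + t)) y = br i (P j s) y * br i (P j t) y := by
    intro j s t y
    rw [← MonoidHom.mul_apply, ← map_mul]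
    exact br_left _ _ (hψadd j s t) y
  have eadd : ∀ x v v', br i x (e (v + v')) = br i x (e v) * br i x (e v') := by
    intro x v v'
    rw [← map_mul]
    exact br_right _ _ _ (hw3 v v')
  have econt := he.cont
  let β : Fin N → ℝ → (Fin n → ℝ) → ℝ → Cn G (i + 2) := fun j t v r =>
    br i (P j t) (e v) * br i (P j (r * t)) g
  have βt : ∀ j s t v r, β j (s + t) v r = β j s v r * β j t v r := by
    intro j s t v r
    simp only [β]
    rw [mul_add, Padd, Padd, mul_mul_mul_comm]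
  have βw : ∀ j t v v' r r', β j t (v + v') (r + r') = β j t v r * β j t v' r' := by
    intro j t v v' r r'
    simp only [β]
    rw [add_mul, Padd, eadd, mul_mul_mul_comm]
  have βbal : ∀ j t s v r, β j t (s • v) (s * r) = β j (t * s) v r := by
    intro j t s v r
    have h1 := balanced (fun a b => br i (P j (a * t)) (e (b • v)))
      (fun a a' b => by rw [add_mul, Padd]) (fun a b b' => by rw [add_smul, eadd])
      (br_cont i (fun a => P j (a * t)) _ ((Pc j).comp (by fun_prop)) (by fun_prop))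
      (br_cont i (fun _ => P j (1 * t)) (fun b : ℝ => e (b • v)) (by fun_prop) (by fun_prop)) s
    simp only [one_mul, one_smul] at h1
    simp only [β]
    rw [← h1, mul_comm s t, show s * r * t = r * (t * s) by ring]
  have βint : ∀ j t v (k : ℤ), β j t v k = br i (P j t) (e v * g ^ k) := by
    intro j t v k
    simp only [β]
    have h1 := add_int (fun a => br i (P j a) g) (fun a b => Padd j a b g) t k
    rw [h1, map_mul, map_zpow]
  -- the new family
  let Ψ : Fin N × Fin (n + 1) → ℝ → L G (i + 1) := fun p t =>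
    ⟨⁅ψ p.1 t, e (w p.2)⁆ * ⁅ψ p.1 (m p.2 * t), g⁆,
      mul_mem (comm_mem (hψL _ _) _) (comm_mem (hψL _ _) _)⟩
  have hΨ : ∀ p t, rho (i + 1) (Ψ p t) = β p.1 t (w p.2) (m p.2) := by
    intro p t
    simp only [β, br_rho, ← map_mul]
    rfl
  refine RD_of Γ i Ψ (fun p => ?_) (fun p s t => ?_) (fun p => ?_) (fun x y => ?_)
  · show Continuous fun t => ⁅ψ p.1 t, e (w p.2)⁆ * ⁅ψ p.1 (m p.2 * t), g⁆
    simp only [commutatorElement_def]
    have h1 := hψc p.1
    fun_prop
  · rw [hΨ, hΨ, hΨ, βt]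
  · obtain ⟨γ, hγ, h1⟩ := hψ1 p.1
    obtain ⟨γ', hγ', h2⟩ := hw1 p.2
    refine ⟨⁅γ, γ'⁆, Γ.mul_mem (Γ.mul_mem (Γ.mul_mem hγ hγ') (Γ.inv_mem hγ)) (Γ.inv_mem hγ'), ?_⟩
    have h3 : cl (i + 2) (Ψ p 1 : G) = ((rho (i + 1) (Ψ p 1) : Cn G (i + 1 + 1)) :
      Qt G (i + 1 + 1)) := rfl
    rw [h3, hΨ, βint, br_right _ _ _ h2, br_coe]
    have h4 : γ = ψ p.1 1 * ((ψ p.1 1)⁻¹ * γ) := by group
    have h5 := Lc_cent h1
    rw [Subgroup.mem_center_iff] at h5
    have h6 : cl (i + 1 + 1) γ = cl (i + 1 + 1) (ψ p.1 1) * cl (i + 1 + 1) ((ψ p.1 1)⁻¹ * γ) := by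
      rw [← map_mul, ← h4]
    show cl (i + 1 + 1) ⁅ψ p.1 1, γ'⁆ = cl (i + 1 + 1) ⁅γ, γ'⁆
    rw [map_commutatorElement, map_commutatorElement, h6]
    generalize cl (i + 1 + 1) (ψ p.1 1) = a at *
    generalize cl (i + 1 + 1) ((ψ p.1 1)⁻¹ * γ) = u at *
    generalize cl (i + 1 + 1) γ' = b at *
    rw [commutatorElement_def, commutatorElement_def, mul_inv_rev]
    have h7 : a * u * b = a * b * u := by rw [mul_assoc, ← h5 b, ← mul_assoc]
    rw [h7]
    group
  · obtain ⟨s, hs⟩ := hψs x x.2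
    obtain ⟨v, k, hv⟩ := hw4 y
    obtain ⟨t, ht1, ht2⟩ := hw2 v k
    refine ⟨fun p => s p.1 * t p.2, ?_⟩
    have e1 : br i x y = br i (List.ofFn fun j => P j (s j)).prod (e v * g ^ k) := by
      rw [← br_right _ _ _ hv]
      refine br_left _ _ ?_ _
      rw [SubmonoidClass.coe_list_prod, List.map_ofFn]
      exact hs
    rw [e1, br_prod, Fintype.prod_prod_type]
    refine Finset.prod_congr rfl fun j _ => ?_
    rw [← βint]
    have e2 := map_sum' (V := (Fin n → ℝ) × ℝ) (fun p => β j (s j) p.1 p.2)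
      (fun p q => βw j (s j) _ _ _ _) Finset.univ (fun k => (t k • w k, t k * (m k : ℝ)))
    have e3 : (∑ k, (t k • w k, t k * (m k : ℝ)) : (Fin n → ℝ) × ℝ) = (v, (k : ℝ)) := by
      rw [ht1, ht2]
      exact Prod.ext (by simp [Prod.fst_sum]) (by simp [Prod.snd_sum])
    rw [e3] at e2
    simp only at e2
    rw [e2]
    refine Finset.prod_congr rfl fun k _ => ?_
    rw [βbal, hΨ]

end Pool.Agent.Q257.NP
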